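import Pool.Agent.P8H58.Fin
import Pool.Agent.Y63.NV.PeL

/-!
# Navarro's conjecture follows from estimates for perfect groups

The definitions `IsBlock`, `IsInvBlock`, `numIBr`, `numDz`, `InDefect`, `NavarroTheta`, `numIrrBlock`,
`numWtBlock` are those of the files `Pool/Agent/Y63/NV/{Defs,Stm3,Bawc}.lean`. For a normal subgroup `G` of
`Γ` with `Γ/G` a `p`-group, `NavarroTheta p red G` is Navarro's equality
`|IBr_Γ(B)| = ∑_{Q ∈ Θ_B/Γ} |dz(N_Γ(Q)/Q | B)|` for all `Γ`-invariant blocks `B` of `G`. For a block `B` of a
group `G`, `numIrrBlock B` is `|IBr(B)|` and `weights p red B` is the number of the `G`-classes of weights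
of `B`; these are the two sides of the equality in the case `Γ = G`.

Proof. Let `G` be a group in the class without nontrivial normal `p`-subgroups and without normal
subgroups of index `p`, and let `e` be a central element of `FG` with support in the commutator subgroup.
Put `H = S^k`, `n = |H|`, let `Y` be cyclic of prime order `q ≠ p`, let `V` be the group of the functions
`H → Y` with product `1` and `W = (G^H × V) ⋊ H` with `H` acting by shifts. The elements of `W` whose
coordinates in `G` have trivial product in the abelianization of `G` form a normal subgroup `Γ₀`. It has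
no nontrivial normal `p`-subgroup, and all its nontrivial quotients contain a copy of `S`. The values at
the elements of `H`, composed with a faithful character of `Y`, are `n` linear characters `λ_u` of `V`,
permuted regularly by `H`. By Clifford theory for modules and for weights, `e ⊗ ⋯ ⊗ e ⊗ ∑ λ_u` does not
annihilate `l(e)^n` simple modules and `w(e)^n` classes of weights of `Γ₀`, up to factors polynomial in `n`.
So estimates with a factor `|Γ₀|^ε` for all `ε` give `l(e) = w(e)`, and from this the equality for the
blocks of `G`. The equality for all pairs follows by the starting result `EquivalentToWeights`.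
-/

set_option autoImplicit false

open scoped Classical

noncomputable section

namespace Pool.Agent.Results.MP_0c8ca5_al.AsymptoticPerfect

open Pool.Agent.Y63.NV
open Pool.Agent.Y63.AWC (pSubgroupSetoid)

/-- The number of the `G`-classes of weights of the block `B` of `G`: the right-hand side of Navarro's
equality in the case `Γ = G`. -/
def weights (p : ℕ) {F : Type} [Field F] (red : integralClosure ℤ ℂ →+* F) {G : Type} [Group G]
    (B : (G → F) → F) : ℕ :=
  ∑ᶠ c : Quotient (pSubgroupSetoid p G), numWtBlock p red c.out.1 B

/-- **Navarro's conjecture follows from estimates for perfect groups.** Let `X` be a class of groups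
(e.g. of all groups) which is closed under isomorphisms, subgroups, quotients by normal `p`-subgroups and
extensions, and let `S` be a finite nonabelian simple group in `X`. The following are equivalent.
(a) Navarro's equality holds for all pairs `G ⊴ Γ` and all `Γ`-invariant blocks of `G`, whenever `Γ` is a
finite group and `G` contains a normal subgroup `N` of `Γ` in `X` for which `Γ/N` is a `p`-group (for
example for all `G` in `X` with `Γ/G` a `p`-group).
(b) For every `ε > 0` there is a `C` such that in the case `Γ = G` each side of Navarro's equality for a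
block is at most `C |G|^ε` times the other side, for all finite groups `G` in `X` such that `G` has
no nontrivial normal `p`-subgroup and every nontrivial quotient of `G` has a subgroup isomorphic to
`S`; in particular `G` is perfect. -/
theorem result (p : ℕ) [Fact p.Prime] (F : Type) [Field F] [IsAlgClosed F] [CharP F p]
    (red : integralClosure ℤ ℂ →+* F) (X : ∀ (G : Type) [Group G], Prop)
    (hiso : ∀ (G H : Type) [Group G] [Group H], (G ≃* H) → X G → X H)
    (hsub : ∀ (G : Type) [Group G] (H : Subgroup G), X G → X H)
    (hquot : ∀ (G : Type) [Group G] (M : Subgroup G) [M.Normal], IsPGroup p M → X G → X (G ⧸ M))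
    (hext : ∀ (G : Type) [Group G] (N : Subgroup G) [N.Normal], X N → X (G ⧸ N) → X G)
    (S : Type) [Group S] [Finite S] [IsSimpleGroup S] (hc : ∃ s t : S, s * t ≠ t * s) (hS : X S) :
    (∀ (Γ : Type) [Group Γ] [Finite Γ] (N G : Subgroup Γ) [N.Normal] [G.Normal], N ≤ G → X N →
      IsPGroup p (Γ ⧸ N) → NavarroTheta p red G) ↔
    ∀ ε : ℝ, 0 < ε → ∃ C : ℝ, ∀ (G : Type) [Group G] [Finite G], X G →
      (∀ P : Subgroup G, P.Normal → IsPGroup p P → P = ⊥) →
      (∀ (M : Subgroup G) [M.Normal], M ≠ ⊤ → ∃ f : S →* G ⧸ M, Function.Injective f) →
      ∀ B : (G → F) → F, IsBlock B →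
        (numIrrBlock B : ℝ) ≤ C * (Nat.card G : ℝ) ^ ε * (weights p red B : ℝ) ∧
        (weights p red B : ℝ) ≤ C * (Nat.card G : ℝ) ^ ε * (numIrrBlock B : ℝ) := by
  obtain ⟨s, t, hst⟩ := hc
  have hX : Pool.Agent.P8H58.Cls p X :=
    ⟨⟨fun G H _ _ hG ⟨e⟩ => hiso G H e hG, fun G _ hG H => hsub G H hG,
      fun G _ hG M _ hM => hquot G M hM hG⟩, fun G _ N _ hN hG => hext G N hN hG⟩
  have h1 := Pool.Agent.P8H58.main red hX hst hS
  have h2 := bawc_strong red X hX.closed
  have h3 := block_strong red X hX.closed
  refine h3.symm.trans (Iff.trans ?_ (h2.trans h1))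
  constructor
  · intro h H _ _ hH hR
    exact (bawc_iff p red).2 ((theta_iff p F red H ⊤).1 (h H hH hR))
  · intro h H _ _ hH hR
    exact (theta_iff p F red H ⊤).2 ((bawc_iff p red).1 (h H hH hR))

end Pool.Agent.Results.MP_0c8ca5_al.AsymptoticPerfect
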