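import Pool.Agent.P8H58.DL.Fin2

/-!
# Navarro's blockwise conjecture is a congruence modulo an arbitrary prime for perfect groups

The definitions `IsBlock`, `NavarroTheta`, `numIrrBlock`, `numWtBlock` are those of the files
`Pool/Agent/Y63/NV/{Defs,Stm3,Bawc}.lean`: a block of `G` is given by its central character `B`,
`NavarroTheta p red G` is Navarro's equality for all `Γ`-invariant blocks of the normal subgroup `G` of
`Γ`, `numIrrBlock B` is `l(B)`, the number of the irreducible characters of `G` over `F` in `B`, and
`numWtBlock p red Q B` is the number of the weights `(Q, χ)` of `B` with first entry `Q`; `l(B)` and the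
number `w(B)` of the classes of weights are the two sides of Navarro's equality for `Γ = G`.

Proof. By the starting result `EquivalentToWeights`, Navarro's equality for all pairs is equivalent to
the case `G = Γ`, the equality `l(B) = w(B)`. (a) Clifford theory over `F` and for the weights: let `V` be an abelian normal `p'`-subgroup of
`V ⋊ H` and `S` the stabiliser in `H` of a linear character of `V`. For every block `b` of `S` there is a
block `B` of `V ⋊ H` with `l(B) = l(b)` and `w(B) = w(b)` (`Pool.Agent.P8H58.DL.fr`). As in the earlier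
results for alternating sums, every finite group `G` in `X` is such a stabiliser for a group `V ⋊ H` in
`X` all of whose nontrivial quotients contain `T`, where `V` is an elementary abelian `q`-group and its own
centraliser; it is larger than `G`, and the step can be repeated. (b) Let `r` be a prime different from `p`, let `e` be the
idempotent of a block, `l`, `w` the numbers of irreducible characters and of weights, and `l'`, `w'` the
numbers for `e ⊗ ⋯ ⊗ e` and `G ≀ C_r`. Then `r l' + l = l^r + r² l` and `r w' + w = w^r + r² w`. So if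
`l ≡ w` modulo `r^j` for all blocks, then also modulo `r^(j+1)`. For `r = p` use the starting
result of `Pool/Agent/N85/WM`. (c) The numbers of triples are a reformulation of the congruence modulo `p`
for a single group (`Pool/Agent/N85/WM`).

Parts of the proof were written by helper21, helper41, helper52, helper54, helper62, helper76, helper84
and helper88 (directories `Pool/Agent/P8H*/DL`); the rest by helper58.
-/

set_option autoImplicit false

open scoped Classical

noncomputable section

namespace Pool.Agent.Results.MP_0c8ca5_al.CongruencePerfect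

open Pool.Agent.Y63.NV
open Pool.Agent.Y63.AWC (pSubgroupSetoid)

/-- `w(B)`: the number of the `G`-classes of weights of `B`; the sum is over representatives `Q` of the
classes of `p`-subgroups of `G`. -/
def weights (p : ℕ) {F : Type} [Field F] (red : integralClosure ℤ ℂ →+* F) {G : Type} [Group G]
    (B : (G → F) → F) : ℕ :=
  ∑ᶠ c : Quotient (pSubgroupSetoid p G), numWtBlock p red c.out.1 B

/-- Navarro's equality, for all normal subgroups `G` of finite groups `Γ` such that `G` contains a normal
subgroup `N` of `Γ` in `X` for which `Γ/N` is a `p`-group (for example for all `G` in `X` with `Γ/G` a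
`p`-group), and all `Γ`-invariant blocks of `G`. -/
def Nav (p : ℕ) {F : Type} [Field F] (red : integralClosure ℤ ℂ →+* F)
    (X : ∀ (G : Type) [Group G], Prop) : Prop :=
  ∀ (Γ : Type) [Group Γ] [Finite Γ] (N G : Subgroup Γ) [N.Normal] [G.Normal], N ≤ G → X N →
    IsPGroup p (Γ ⧸ N) → NavarroTheta p red G

/-- `Few X T q G`: `G` is a finite group in `X`, every nontrivial quotient of `G` has a subgroup isomorphic
to `T`, and `G` is the semidirect product of an elementary abelian normal `q`-subgroup `V` with
`C_G(V) = V` and a subgroup `H`. -/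
def Few (X : ∀ (G : Type) [Group G], Prop) (T : Type) [Group T] (q : ℕ) (G : Type) [Group G] :
    Prop :=
  X G ∧ Finite G ∧
    (∀ (M : Subgroup G) [M.Normal], M ≠ ⊤ → ∃ f : T →* G ⧸ M, Function.Injective f) ∧
    ∃ V H : Subgroup G, V.Normal ∧ (∀ v ∈ V, v ^ q = 1) ∧
      Subgroup.centralizer (V : Set G) = V ∧ V.IsComplement' H

/-- `x` is a `p`-element. -/
def IsPElement (p : ℕ) {G : Type} [Group G] (x : G) : Prop := ∃ j : ℕ, orderOf x = p ^ j

/-- The number of the triples `(x, y, k)` of elements of `N_G(Q)` such that `k` is conjugate to `g` in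
`G` and `k[x,y]` is a `p`-element. -/
def triples (p : ℕ) {G : Type} [Group G] (Q : Subgroup G) (g : G) : ℕ :=
  Nat.card {t : G × G × G // (t.1 ∈ Subgroup.normalizer (Q : Set G) ∧
    t.2.1 ∈ Subgroup.normalizer (Q : Set G) ∧ t.2.2 ∈ Subgroup.normalizer (Q : Set G)) ∧
    IsConj g t.2.2 ∧ IsPElement p (t.2.2 * (t.1 * t.2.1 * t.1⁻¹ * t.2.1⁻¹))}

/-- The number of the triples `(x, y, k)` of elements of `G` such that `x` has order prime to `p`, `k` is
conjugate to `g` and `k[x,y]` is a `p`-element which commutes with `yxy⁻¹`. -/
def regTriples (p : ℕ) {G : Type} [Group G] (g : G) : ℕ :=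
  Nat.card {t : G × G × G // ¬ p ∣ orderOf t.1 ∧ IsConj g t.2.2 ∧
    IsPElement p (t.2.2 * (t.1 * t.2.1 * t.1⁻¹ * t.2.1⁻¹)) ∧
    Commute (t.2.2 * (t.1 * t.2.1 * t.1⁻¹ * t.2.1⁻¹)) (t.2.1 * t.1 * t.2.1⁻¹)}

/-- **Navarro's conjecture, congruences and perfect groups.** Let `X` be a class of groups (e.g.
of all groups) which is closed under isomorphisms, subgroups, quotients by normal `p`-subgroups and
extensions, let `T` be a finite nonabelian simple group in `X` and `q` a prime divisor of its order
different from `p`.
(0) The groups in `Few X T q` are perfect and have no nontrivial normal `p`-subgroups.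
(1) For every block `B` of a finite group in `X` and every `n` there is a block `B'` of a group in
`Few X T q` of order larger than `n` with `l(B') = l(B)` and `w(B') = w(B)`.
(2) Let `r` be a prime number such that the group of order `r` is in `X`; the cases `r = p` and `r = q` are
allowed. For every `n`, Navarro's equality holds for all pairs (`Nav`) if and only if `l(B)` and `w(B)` are
congruent modulo `r` for all blocks of all groups in `Few X T q` of order larger than `n`.
(3) Let the group of order `p` be in `X`. For every `n`, `Nav` holds if and only if for all groups `G` in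
`Few X T q` of order larger than `n` and all `g ∈ G`, the number `regTriples p g` is congruent modulo
`p |G|_p` to the sum of the numbers `triples p Q g / |Q|` over all `p`-subgroups `Q` of `G`. The terms of
this sum are integers. -/
theorem result (p : ℕ) [Fact p.Prime] (F : Type) [Field F] [IsAlgClosed F] [CharP F p]
    (red : integralClosure ℤ ℂ →+* F) (X : ∀ (G : Type) [Group G], Prop)
    (hiso : ∀ (G H : Type) [Group G] [Group H], (G ≃* H) → X G → X H)
    (hsub : ∀ (G : Type) [Group G] (H : Subgroup G), X G → X H)
    (hquot : ∀ (G : Type) [Group G] (M : Subgroup G) [M.Normal], IsPGroup p M → X G → X (G ⧸ M))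
    (hext : ∀ (G : Type) [Group G] (N : Subgroup G) [N.Normal], X N → X (G ⧸ N) → X G)
    (T : Type) [Group T] [Finite T] [IsSimpleGroup T] (hc : ∃ s t : T, s * t ≠ t * s) (hT : X T)
    (q : ℕ) (hq : q.Prime) (hqp : q ≠ p) (hqT : q ∣ Nat.card T) :
    (∀ (G : Type) [Group G], Few X T q G → commutator G = ⊤ ∧
      ∀ P : Subgroup G, P.Normal → IsPGroup p P → P = ⊥) ∧
    (∀ (n : ℕ) (G : Type) [Group G] [Finite G], X G → ∀ B : (G → F) → F, IsBlock B →
      ∃ (Γ : Type) (_ : Group Γ) (B' : (Γ → F) → F), Few X T q Γ ∧ n < Nat.card Γ ∧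
        IsBlock B' ∧ numIrrBlock B' = numIrrBlock B ∧ weights p red B' = weights p red B) ∧
    (∀ (r : ℕ), r.Prime → X (Multiplicative (ZMod r)) → ∀ n : ℕ,
      (Nav p red X ↔ ∀ (G : Type) [Group G], Few X T q G → n < Nat.card G →
        ∀ B : (G → F) → F, IsBlock B → numIrrBlock B ≡ weights p red B [MOD r])) ∧
    (X (Multiplicative (ZMod p)) → ∀ n : ℕ,
      (Nav p red X ↔ ∀ (G : Type) [Group G], Few X T q G → n < Nat.card G → ∀ g : G,
        regTriples p g ≡ ∑ᶠ Q : {Q : Subgroup G // IsPGroup p Q}, triples p Q.1 g / Nat.card Q.1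
          [MOD p ^ ((Nat.card G).factorization p + 1)])) ∧
    ∀ (G : Type) [Group G] [Finite G] (Q : Subgroup G), IsPGroup p Q → ∀ g : G,
      Nat.card Q ∣ triples p Q g := by
  obtain ⟨s, t, hst⟩ := hc
  have hX : Closed p X :=
    ⟨fun G H _ _ hG ⟨e⟩ => hiso G H e hG, fun G _ hG H => hsub G H hG,
      fun G _ hG M _ hM => hquot G M hM hG⟩
  have hE : Pool.Agent.P8H58.FR.Ecl X :=
    ⟨fun G H _ _ hG ⟨e⟩ => hiso G H e hG, fun G _ hG H => hsub G H hG,
      fun G _ N _ hN hG => hext G N hN hG⟩
  have h0 : Nav p red X ↔ ∀ (G : Type) [Group G] [Finite G], X G → BAWC p red G := by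
    refine (block_strong red X hX).symm.trans (Iff.trans ?_ (Pool.Agent.P8H58.DL.awc_top red hX))
    refine Iff.trans ?_ (bawc_strong red X hX)
    constructor
    · intro h H _ _ hH hR
      exact (bawc_iff p red).2 ((theta_iff p F red H ⊤).1 (h H hH hR))
    · intro h H _ _ hH hR
      exact (theta_iff p F red H ⊤).2 ((bawc_iff p red).1 (h H hH hR))
  refine ⟨?_, ?_, ?_, ?_, fun _ _ _ Q hQ g => ⟨_, ((mul_assoc _ _ _).symm.trans
    (Pool.Agent.N85.WM.norm_trip Q hQ g)).symm⟩⟩
  · intro G _ h
    constructor
    swap
    · obtain ⟨V, H, h1, h2, h3, -⟩ := h.2.2.2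
      exact fun P hP hPp => Pool.Agent.P8H58.DL.core_of_cen hq hqp h1 h2 h3 P hP hPp
    by_contra hne
    obtain ⟨f, hf⟩ := h.2.2.1 (commutator G) hne
    apply hst
    apply hf
    rw [map_mul, map_mul]
    exact mul_comm (G := Abelianization G) (f s) (f t)
  · intro n G _ _ hG B hB
    exact Pool.Agent.P8H58.DL.large2 red hE hst hT hq hqp hqT n hG hB
  · intro r hr hXr n
    have : Fact r.Prime := ⟨hr⟩
    exact h0.trans (Pool.Agent.P8H58.DL.cong_iff2 red hE hst hT hq hqp hqT r hXr n)
  · intro hXp n
    exact h0.trans (Pool.Agent.P8H58.DL.trip_iff2 red hE hst hT hq hqp hqT hXp n)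

end Pool.Agent.Results.MP_0c8ca5_al.CongruencePerfect
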